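import Pool.Agent.V8H38.OC.Main

/-!
# An infinite polynomial hierarchy and counterexample computations for all optimization problems

There is an oracle `A` such that the polynomial hierarchy relative to `A` is infinite (no level
contains it), and yet every optimization problem `(C, ρ)` with `C` in `P` relative to `A` and `ρ`
computable in polynomial time relative to `A` is computed by a counterexample computation of type 1
with an oracle set in `P` relative to `A`. The number of questions to the adversary is even smaller
than `n`: for every `c` at most `n / (c * size n) + K` questions are needed for inputs with `n`
binary digits, where `size n` is the number of binary digits of `n`.

So Q1 for `i = 0` has no proof from the assumption that the polynomial hierarchy is infinite which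
holds relative to all oracles.

The definitions are in `Pool/Agent/V8H38/OC/Defs.lean` (optimization problems with an objective
function computable relative to the oracle), `Pool/Agent/V8H57/CX/Defs.lean` (the levels of the
hierarchy, adversaries, counterexample computations), `Pool/Agent/V8H57/RX/Defs.lean` (the number
of questions to the adversary) and `Pool/Agent/H620R2/Gauge/Defs.lean` (oracles, polynomial time
and the polynomial hierarchy relative to an oracle).

Proof. The oracle has two parts. The first part is random: the positions are divided into blocks,
one position is planted in every block, with the exception of very few blocks; and for every number
`l` every position is hidden at level `l` with probability about `1 / l`, the hidden positions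
decreasing with `l`. The second part, defined by recursion on the length of the strings, tells the
student, for an input of the problem number `e` and a transcript, what to do next, as far as this
can be known from the positions which are not hidden at a level polynomial in the length of the
input: the student presents an optimal one among the solutions which are certain without the hidden
positions, and after a counterexample he asks for the hidden positions used by the algorithms for
`C` and `ρ` on the counterexample. If there are `k` counterexamples, then there are `k` hidden
positions such that each of them is used on the best solution which does not use the former ones
(`play_ext`); this is a path with few choices, and so it is very unlikely (`path_prob`). On the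
other hand, an algorithm working in time `l` can see no difference between a block without a
planted position and a block with a planted position hidden at level `l`. So the nodes given by the
blocks are as good as the nodes in the average-case depth hierarchy theorem, and the hierarchy is
infinite.
-/

set_option autoImplicit false

namespace Pool.Agent.Results.MP_2b5695_lc.CollapseWithInfinitePH

open Pool.Agent.H620R2.Gauge Pool.Agent.V8H57.CX Pool.Agent.V8H38.OC

/-- There are an oracle `A` such that for every `k` some set of the polynomial hierarchy relative
to `A` is not in `Σ_k` relative to `A`, and a set `S` in `P` relative to `A`, such that every
optimization problem `(C, ρ)` with `C` in `P` relative to `A` and `ρ` computable in polynomial time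
relative to `A` is computed by a counterexample computation with oracle `S`; and for every `c ≥ 1`
this is possible with at most `n / (c * size n) + K` questions to the adversary for inputs with `n`
binary digits, with a constant `K`. -/
theorem result : ∃ A : Oracle,
    (∀ k : ℕ, ∃ L : Set (List Bool), IsPH A L ∧ ¬ InSigma A k L) ∧
    ∃ S : Set (List Bool), InSigma A 0 S ∧
      ∀ (C : ℕ → ℕ → Prop) (ρ : ℕ → ℕ), IsOptProblemA A 0 C ρ → ∀ c : ℕ, 1 ≤ c →
        ∃ (M : CAlg) (K : ℕ), M.Computes S C ρ ∧
          ∀ (x : ℕ) (adv : Adversary), adv.Correct C ρ x →
            M.asks S adv x (M.p.eval x.bits.length) [] ≤
              x.bits.length / (c * Nat.size x.bits.length) + K :=
  main

end Pool.Agent.Results.MP_2b5695_lc.CollapseWithInfinitePH
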