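import Pool.Agent.V8H59.LZ.Seq

/-!
# An oracle for which Q1 has a positive answer at level zero and a negative one at all other levels

There is an oracle `A` such that `PH` and `PSPACE` relative to `A` are contained in `UP` relative
to `A` (`NP` with unique certificates) and

* (`i = 0`, positive answer) there is an optimization problem with `C` in `P` relative to `A` that
  is not computed by any counterexample computation of type 1 with an oracle set in `P` relative
  to `A`;
* (`i = 0`, numbers of questions) for every polynomial `p` there is an optimization problem with
  `C` in `P` relative to `A` that is computed with at most `p |x| + 1` questions to the adversary,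
  but by no counterexample computation, with an oracle set in `P` relative to `A`, that asks at
  most `p |x|` questions;
* (`i ≥ 1`, negative answer) there is a set `S` in `NP` relative to `A`, hence in `Σ_i` relative to
  `A` for all `i ≥ 1`, such that for all `i ≥ 1` every optimization problem with `C` in `Π_i`
  relative to `A` is computed by a counterexample computation with oracle set `S` that asks the
  adversary no question at all.

So no relativizing argument leads from a positive answer to Q1 for `i = 0` to a positive answer for
some `i ≥ 1`, or to `PH ≠ NP`.

The definitions are in `Pool/Agent/V8H57/CX/Defs.lean` (levels of the hierarchy, optimization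
problems, adversaries, counterexample computations), `Pool/Agent/V8H57/RX/Defs.lean` (the number of
questions to the adversary), `Pool/Agent/H620R2/Gauge/Defs.lean` (oracles, polynomial time, the
polynomial hierarchy and polynomial space relative to an oracle) and
`Pool/Agent/V8H59/LZ/Defs.lean` (`UP` relative to an oracle).

Proof. The oracle has a visible part, a set of numbers for every problem of level zero, and a
hidden part: the string `u` is in the hidden set if the oracle contains the pair of `u` and its
witness `W u`, a string as long as `u`. The hidden set is defined by recursion on the length; it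
answers all questions about languages in `PH` and `PSPACE` and about the digits of optimal
solutions of all optimization problems. So these are answered in `UP`. At level zero the witnesses
cannot be found: they are chosen, together with the solutions, by a diagonalization. The adversary
always answers with the next solution, which is chosen only when it is needed, among the numbers
which the machine has not asked about; the witnesses of the long strings are chosen at the end,
different from the strings which the machine has tried.
-/

set_option autoImplicit false

namespace Pool.Agent.Results.MP_2b5695_lc.LevelZeroOnly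

open Pool.Agent.H620R2.Gauge Pool.Agent.V8H57.CX Pool.Agent.V8H59.LZ

/-- **Q1 relative to an oracle: true for `i = 0`, with a strict hierarchy in the number of
questions, and false for all `i ≥ 1`.** -/
theorem result : ∃ A : Oracle,
    (∀ L : Set (List Bool), IsPH A L ∨ IsPSPACE A L → InUP A L) ∧
    (∃ C : ℕ → ℕ → Prop, IsOptProblem A 0 C id ∧
      ∀ S : Set (List Bool), InSigma A 0 S → ∀ M : CAlg, ¬ M.Computes S C id) ∧
    (∀ p : Polynomial ℕ, ∃ C : ℕ → ℕ → Prop, IsOptProblem A 0 C id ∧
      (∃ S : Set (List Bool), InSigma A 0 S ∧ ∃ M : CAlg, M.Computes S C id ∧
        ∀ (x : ℕ) (adv : Adversary), adv.Correct C id x →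
          M.asks S adv x (M.p.eval x.bits.length) [] ≤ p.eval x.bits.length + 1) ∧
      ∀ S : Set (List Bool), InSigma A 0 S → ∀ M : CAlg, M.Computes S C id →
        ∃ (x : ℕ) (adv : Adversary), adv.Correct C id x ∧
          p.eval x.bits.length < M.asks S adv x (M.p.eval x.bits.length) []) ∧
    ∃ S : Set (List Bool), ∀ i : ℕ, 1 ≤ i → InSigma A i S ∧
      ∀ (C : ℕ → ℕ → Prop) (ρ : ℕ → ℕ), IsOptProblem A i C ρ →
        ∃ M : CAlg, M.Computes S C ρ ∧ ∀ (x : ℕ) (adv : Adversary), adv.Correct C ρ x →
          M.asks S adv x (M.p.eval x.bits.length) [] = 0 := by
  obtain ⟨W, S, hW, hc, hR⟩ := exists_WS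
  refine ⟨orA W S, ?_, ?_, ?_, ?_⟩
  · rintro L (h | h)
    · exact ph_up hW h
    · exact pspace_up hW h
  · refine ⟨CS S 0, isOpt 0, fun O hO M hM => ?_⟩
    obtain ⟨N, rfl⟩ := exists_alg hO
    obtain ⟨x, adv, h1, h2⟩ := hR (0, M, N)
    obtain ⟨y, h3, h4⟩ := hM x adv h1
    exact h2 y h3 (asks_le _ _ _ _ _ _) h4
  · intro p
    obtain ⟨e, rfl⟩ := pe_surj p
    refine ⟨CS S (e + 1), isOpt (e + 1), ⟨{q | orA W S q = true}, V8H57.RX.inSigma_zero _, ?_⟩,
      fun O hO M hM => ?_⟩
    · obtain ⟨h1, h2⟩ := sM_computes (hc e) {q | orA W S q = true}
      exact ⟨sM (pe e), h1, fun x adv hadv => h2 x adv hadv _⟩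
    · obtain ⟨N, rfl⟩ := exists_alg hO
      obtain ⟨x, adv, h1, h2⟩ := hR (e + 1, M, N)
      obtain ⟨y, h3, h4⟩ := hM x adv h1
      refine ⟨x, adv, h1, ?_⟩
      by_contra hle
      exact h2 y h3 (not_lt.1 hle) h4
  · exact ⟨O1 W S, fun i hi => ⟨inSigma_O1 hW i (by omega), fun C ρ h => by
      obtain ⟨M, h1, h2⟩ := computes_pos h
      exact ⟨M, h1, fun x adv hadv => h2 x adv hadv _⟩⟩⟩

end Pool.Agent.Results.MP_2b5695_lc.LevelZeroOnly
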