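import Pool.Agent.V8H57.RX.Diag

/-!
# An oracle with `NP ≠ coNP` relative to which all optimization problems are computed

There is an oracle `A` with `NP ≠ coNP` relative to `A` such that for every `i` every optimization
problem `(C, ρ)` with `C` in `Π_i` relative to `A` is computed by a polynomial-time counterexample
computation with an oracle set in `Σ_i` relative to `A`, which presents at most one number to the
adversary (and none if `i ≥ 1`). So Q1 has a negative answer for all `i` relative to this oracle,
while it has a positive answer for all `i` relative to almost every oracle (`RandomOracles`).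

The definitions are in `Pool/Agent/V8H57/CX/Defs.lean` (optimization problems, adversaries,
counterexample computations), `Pool/Agent/V8H57/RX/Defs.lean` (the number of questions to the
adversary) and `Pool/Agent/H620R2/Gauge/Defs.lean` (oracles, polynomial time relative to an oracle).

Proof. The oracle has two parts. The second part is a very sparse set `S` of numbers, made by
diagonalisation against all nondeterministic algorithms for the complement of the language of all
strings `x` such that `S` has a member with `|x| + 1` digits. The first part does not depend on
`S`; it is defined by recursion on the length of the strings, and answers, for every machine index,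
input and transcript, what a student with unlimited computing power, who knows the first part, does
next. The student finds the small members of `S` by trying them; at most one member `s` of `S`
which matters is not known then. For `i ≥ 1` its digits are told by an `NP`-oracle. For `i = 0` the
student presents a number that would be optimal if `s` did not exist. If this is not right, then
the counterexample and the presented number together lead to `s`, as an algorithm for `C` has to
ask for `s` on one of them.
-/

set_option autoImplicit false

namespace Pool.Agent.Results.MP_2b5695_lc.OneQuestion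

open Pool.Agent.H620R2.Gauge Pool.Agent.V8H57.CX Pool.Agent.V8H57.RX

/-- There is an oracle `A` such that `NP ≠ coNP` relative to `A`, and for every `i` there is a set
`S` in `Σ_i` relative to `A` such that every optimization problem `(C, ρ)` with `C` in `Π_i`
relative to `A` is computed by a counterexample computation `M` with oracle `S`, which presents at
most one number to the adversary if `i = 0`, and no number if `i ≥ 1`. -/
theorem result : ∃ A : Oracle, (∃ L : Set (List Bool), InSigma A 1 L ∧ ¬ InSigma A 1 Lᶜ) ∧
    ∀ i : ℕ, ∃ S : Set (List Bool), InSigma A i S ∧
      ∀ (C : ℕ → ℕ → Prop) (ρ : ℕ → ℕ), IsOptProblem A i C ρ →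
        ∃ M : CAlg, M.Computes S C ρ ∧
          ∀ (x : ℕ) (adv : Adversary), adv.Correct C ρ x →
            M.asks S adv x (M.p.eval x.bits.length) [] ≤ if i = 0 then 1 else 0 := by
  obtain ⟨S, hS, hR⟩ := exists_hidden
  refine ⟨orc K S, ⟨Lg S, lg_np S, lg_compl hR⟩, fun i => ?_⟩
  have key : ∀ (C : ℕ → ℕ → Prop) (ρ : ℕ → ℕ), IsOptProblem (orc K S) i C ρ →
      ∃ e, (tk e).i = i ∧ (∀ x y, C x y ↔ (tk e).C (orc K S) x y) ∧ (tk e).rho = ρ := by
    rintro C ρ ⟨⟨V, p, ⟨M, hM⟩, hC⟩, -, -, ⟨f, hf, hρ⟩⟩
    obtain ⟨e, he⟩ := tk_surj ⟨i, M, p, ⟨f, hf⟩⟩
    refine ⟨e, by rw [he], fun x y => ?_, ?_⟩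
    · rw [hC x y, he]
      unfold Task.C
      have hV : Task.V ⟨i, M, p, ⟨f, hf⟩⟩ (orc K S) = V := by
        funext z
        unfold Task.V
        rw [hM z]
        rfl
      rw [hV]
    · funext y
      rw [he]
      show num (f y.bits) = ρ y
      rw [hρ, num_bits]
  by_cases hi : i = 0
  · subst hi
    refine ⟨{q | orc K S q = true}, inSigma_zero _, fun C ρ h => ?_⟩
    obtain ⟨e, h1, h2, h3⟩ := key C ρ h
    obtain ⟨M, h4, h5⟩ := computes_level0 hS e h1 h2 h3 h.zero
    exact ⟨M, h4, fun x adv hadv => h5 x adv hadv _⟩
  · refine ⟨O1 S, inSigma_pos S i hi, fun C ρ h => ?_⟩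
    obtain ⟨e, h1, h2, h3⟩ := key C ρ h
    obtain ⟨M, h4, h5⟩ := computes_level1 hS e (by rw [h1]; exact hi) h2 h3 h.zero
    refine ⟨M, h4, fun x adv hadv => ?_⟩
    rw [if_neg hi]
    exact h5 x adv hadv _

end Pool.Agent.Results.MP_2b5695_lc.OneQuestion
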