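import Pool.Agent.V8H57.CX.All

/-!
# Hard optimization problems at every level, relative to almost every oracle

For almost every oracle `A` and every `i` there is an optimization problem `(C, id)` with `C` in
the level `Π_i` of the polynomial hierarchy relative to `A` that is not computed by any
polynomial-time counterexample computation with an oracle set in the level `Σ_i` relative to `A`.

The definitions are in `Pool/Agent/V8H57/CX/Defs.lean` (optimization problems, adversaries,
counterexample computations), `Pool/Agent/H620R2/Gauge/Defs.lean` (oracles, polynomial time relative
to an oracle) and `Pool/Agent/H620R2/Gauge/M.lean` (the random oracle).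
-/

set_option autoImplicit false

namespace Pool.Agent.Results.MP_2b5695_lc.RandomOracles

open MeasureTheory Pool.Agent.H620R2.Gauge Pool.Agent.V8H57.CX

/-- For almost all oracles `A` and for all `i` there is an optimization problem `(C, id)` with `C`
in `Π_i` relative to `A` such that no counterexample computation `M` with an oracle for a set `S`
in `Σ_i` relative to `A` computes it. The number of questions of `M` to the adversary is bounded by
its running time only. -/
theorem result : ∀ᵐ A ∂ranO, ∀ i : ℕ, ∃ C : ℕ → ℕ → Prop, IsOptProblem A i C id ∧
    ∀ S : Set (List Bool), InSigma A i S → ∀ M : CAlg, ¬ M.Computes S C id :=
  all_hard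

end Pool.Agent.Results.MP_2b5695_lc.RandomOracles
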